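import Pool.Agent.Run7.h243.Small
import Pool.Agent.Run7.h243.Big

/-! Heawood's bound for `m`-pire maps on orientable surfaces is always attained. -/

namespace Pool.Agent.Results.MP_800721_co.HeawoodAttained

open Run7.B243 Run7.h243

/-- Heawood's bound for the number of colours of the `m`-pire maps on the sphere with `g` handles -/
noncomputable def heawood (g m : ℕ) : ℕ :=
  ⌊(6 * (m : ℝ) + 1 + Real.sqrt ((6 * (m : ℝ) + 1) ^ 2 + 48 * ((g : ℝ) - 1))) / 2⌋₊

/-- `M` and `country` form an `m`-pire map on the sphere with `g` handles -/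
def IsPire (g m : ℕ) (M : CellMap) {C : Type} (country : M.Face → C) : Prop :=
  M.On (Surface.S g) ∧ ∀ c : C, Nat.card {f : M.Face // country f = c} = m

theorem heawood_eq (g m : ℕ) (hm : 1 ≤ m) (hg : 1 ≤ g) :
    H (2 - 2 * (g : ℤ)) m = (heawood g m : ℤ) := by
  unfold H heawood
  have e : (6 * (m : ℝ) + 1) ^ 2 - 24 * ((2 - 2 * (g : ℤ) : ℤ) : ℝ) =
      (6 * (m : ℝ) + 1) ^ 2 + 48 * ((g : ℝ) - 1) := by push_cast; ring
  rw [e]
  rw [Int.natCast_floor_eq_floor]
  positivity

theorem result (g m : ℕ) (hg : 2 ≤ g) (hm : 2 ≤ m) :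
    ∃ (M : CellMap) (country : M.Face → Fin (heawood g m)), IsPire g m M country ∧
      (∀ a b, a ≠ b → ∃ x, country (M.face x) = a ∧ country (M.face (M.r2 x)) = b) ∧
      ∀ (k : ℕ) (col : Fin (heawood g m) → Fin k), IsColouring M country col → heawood g m ≤ k := by
  have hH := heawood_eq g m (by omega) (by omega)
  have hspec := H_spec (2 - 2 * (g : ℤ)) m (by omega) (by omega)
  obtain ⟨n, hn⟩ : ∃ n, n = heawood g m := ⟨_, rfl⟩
  rw [← hn] at hH ⊢
  rw [hH] at hspec
  obtain ⟨a1, a2, a3, a4⟩ := hspec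
  have hnm : 6 * m + 1 ≤ n := by
    by_contra hcon
    push Not at hcon
    have h1 : (n : ℤ) ≤ 6 * m := by omega
    have h2 : (0 : ℤ) ≤ (n + 1) * (6 * m - n) := mul_nonneg (by omega) (by omega)
    omega
  have hO : Opt n m := by
    obtain h | h : n ≤ 91 ∨ 92 ≤ n := by omega
    · exact opt_small n m (by omega) h hm hnm
    · exact opt_big n m h hm hnm
  obtain ⟨M, country, h1, h2, h3, h4⟩ := opt_surface g m n (by omega) hH hO
  refine ⟨M, country, ⟨⟨by simpa [Surface.Orientable] using h1, h2⟩, h3⟩, h4, ?_⟩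
  intro k col hcol
  have hinj : Function.Injective col := by
    intro a b hab
    by_contra hne
    obtain ⟨x, hx, hx'⟩ := h4 a b hne
    have := hcol x (by rw [hx, hx']; exact hne)
    rw [hx, hx'] at this
    exact this hab
  simpa using Fintype.card_le_of_injective col hinj

end Pool.Agent.Results.MP_800721_co.HeawoodAttained
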